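import Pool.Agent.TH346.CG.Defs2

/-!
GSD-CUBE (job 5507): independent generators give an induced cube in a Cayley graph.
Adapted from `Pool/Agent/TH475/CG/Emb.lean`.
-/

set_option autoImplicit false

open Finset
open scoped Pointwise

namespace Pool.Agent.TH967.CG

open Pool.Agent.TH346.CG

theorem cube_emb (M : ℕ) (Γ : Type) [AddCommGroup Γ] [Fintype Γ] [DecidableEq Γ]
    (A : Finset Γ) (hA : -A = A) (h0 : 0 ∉ A)
    (h : IsEmpty (cube M ↪g SimpleGraph.addCayley (A : Set Γ))) : P M A {0} := by
  intro a ha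
  by_contra hcon
  push Not at hcon
  obtain ⟨ε, hε⟩ : ∃ ε : Finset (Fin M) → Finset (Fin M) → Fin M → SignType,
      ∀ v w i, ε v w i = if i ∈ v then (if i ∈ w then 0 else 1)
        else (if i ∈ w then -1 else 0) := ⟨_, fun _ _ _ => rfl⟩
  obtain ⟨φ, hφd⟩ : ∃ φ : Finset (Fin M) → Γ, φ = fun v => ∑ i ∈ v, a i := ⟨_, rfl⟩
  have hφ : ∀ v w, ∑ i, ((ε v w i : SignType) : ℤ) • a i = φ v - φ w := by
    intro v w
    have h1 : ∀ v, φ v = ∑ i, if i ∈ v then a i else 0 := by
      intro v
      rw [hφd, Finset.sum_ite_mem, Finset.univ_inter]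
    rw [h1, h1, ← Finset.sum_sub_distrib]
    refine Finset.sum_congr rfl fun i _ => ?_
    rw [hε]
    by_cases h2 : i ∈ v <;> by_cases h3 : i ∈ w <;> simp [h2, h3]
  have hsupp : ∀ v w i, ε v w i ≠ 0 ↔ i ∈ symmDiff v w := by
    intro v w i
    rw [hε, Finset.mem_symmDiff]
    by_cases h2 : i ∈ v <;> by_cases h3 : i ∈ w <;> simp [h2, h3]
  have hfilt : ∀ v w, (univ.filter (fun i => ε v w i ≠ 0)) = symmDiff v w := by
    intro v w
    ext i
    rw [Finset.mem_filter, hsupp]
    exact ⟨fun h => h.2, fun h => ⟨Finset.mem_univ i, h⟩⟩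
  have hneg : ∀ g, g ∈ A → -g ∈ A := by
    intro g hg
    rw [← hA]
    exact Finset.neg_mem_neg hg
  have hadj : ∀ v w, (cube M).Adj v w → φ v - φ w ∈ A := by
    intro v w hvw
    obtain ⟨i, hi⟩ := Finset.card_eq_one.1 (show (symmDiff v w).card = 1 from hvw)
    rw [← hφ]
    have h1 : ∑ i', ((ε v w i' : SignType) : ℤ) • a i' = ((ε v w i : SignType) : ℤ) • a i := by
      apply Finset.sum_eq_single i
      · intro j _ hj
        have h2 : ε v w j = 0 := by
          by_contra h3
          rw [← ne_eq, hsupp, hi, Finset.mem_singleton] at h3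
          exact hj h3
        rw [h2]
        simp
      · intro h
        exact absurd (Finset.mem_univ i) h
    rw [h1]
    have h2 : ε v w i ≠ 0 := by
      rw [hsupp, hi]
      exact Finset.mem_singleton_self i
    have h3 : ε v w i = 1 ∨ ε v w i = -1 := by
      rcases SignType.trichotomy (ε v w i) with h | h | h
      · exact Or.inr h
      · exact absurd h h2
      · exact Or.inl h
    rcases h3 with h3 | h3
    · rw [h3]
      simpa using (ha i).1
    · rw [h3]
      simpa using hneg _ (ha i).1
  have hnadj : ∀ v w, v ≠ w → ¬ (cube M).Adj v w → φ v - φ w ∉ A ∧ φ v - φ w ≠ 0 := by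
    intro v w hne hvw
    have hc0 : (symmDiff v w).card ≠ 0 := by
      intro hc
      rw [Finset.card_eq_zero] at hc
      exact hne (symmDiff_eq_bot.1 (by rw [hc]; rfl))
    have hc1 : (symmDiff v w).card ≠ 1 := fun hc => hvw hc
    have h1 := hcon (ε v w) (by rw [hfilt]; omega)
    rw [hφ, Finset.mem_union, Finset.mem_singleton] at h1
    exact ⟨fun h => h1 (Or.inl h), fun h => h1 (Or.inr h)⟩
  have hinj : Function.Injective φ := by
    intro v w hvw
    by_contra hne
    by_cases h : (cube M).Adj v w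
    · have h1 := hadj v w h
      rw [hvw, sub_self] at h1
      exact h0 h1
    · exact (hnadj v w hne h).2 (by rw [hvw, sub_self])
  have hiff : ∀ v w, (SimpleGraph.addCayley (A : Set Γ)).Adj (φ v) (φ w) ↔ (cube M).Adj v w := by
    intro v w
    rw [SimpleGraph.addCayley_adj']
    constructor
    · rintro ⟨h1, g, hg, h2⟩
      have hne : v ≠ w := fun h => h1 (by rw [h])
      by_contra h
      apply (hnadj v w hne h).1
      have hg' : g ∈ A := hg
      rcases h2 with h2 | h2
      · have h3 : φ v - φ w = -g := by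
          rw [← h2]
          abel
        rw [h3]
        exact hneg g hg'
      · have h3 : φ v - φ w = g := by
          rw [h2]
          abel
        rw [h3]
        exact hg'
    · intro h
      refine ⟨fun h1 => h.ne (hinj h1), φ v - φ w, hadj v w h, Or.inr ?_⟩
      abel
  exact h.false ⟨⟨φ, hinj⟩, fun {v w} => hiff v w⟩

end Pool.Agent.TH967.CG
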